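import Pool.Agent.U667.CP.Spec

/-!
Countable compact sets have Chebyshev constant zero; the capacity bounds in final form.
-/

set_option autoImplicit false

namespace Pool.Agent.U667.CP

open MeasureTheory Filter Topology Polynomial

/-- the Chebyshev constant of `S` is at most `ρ` -/
def ChebyshevLE (S : Set ℂ) (ρ : ℝ) : Prop :=
  ∀ ε : ℝ, 0 < ε → ∃ p : Polynomial ℂ, p.Monic ∧ 0 < p.natDegree ∧
    ∀ x ∈ S, ‖p.eval x‖ ≤ (ρ + ε) ^ p.natDegree

/-- the capacity of `E` is at most `κ` -/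
def CapLE (E : Set ℂ) (κ : ℝ) : Prop :=
  ∀ μ : Measure ℂ, IsProbabilityMeasure μ → (∀ z, μ {z} = 0) → (∃ R : ℝ, ∀ᵐ z ∂μ, ‖z‖ ≤ R) →
    (∀ᵐ z ∂μ, z ∈ E) → ∀ b : ℝ, PotGE μ b → Real.exp b ≤ κ

theorem chebyshev_countable {S : Set ℂ} (hS : IsCompact S) (hc : S.Countable) : ChebyshevLE S 0 := by
  intro ε0 hε0
  rw [zero_add]
  rcases S.eq_empty_or_nonempty with rfl | hne
  · exact ⟨Polynomial.X, monic_X, by simp, fun x hx => absurd hx (by simp)⟩
  obtain ⟨x, hx⟩ := hc.exists_eq_range hne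
  set ε : ℝ := min ε0 1 with hε
  have hεpos : 0 < ε := lt_min hε0 one_pos
  have hε1 : ε ≤ 1 := min_le_right _ _
  obtain ⟨D0, hD0⟩ : ∃ D : ℝ, ∀ y ∈ S, ‖y‖ ≤ D := hS.isBounded.exists_norm_le
  set D : ℝ := max (2 * D0) 1 with hD
  have hD1 : 1 ≤ D := le_max_right _ _
  have hDpos : 0 < D := lt_of_lt_of_le one_pos hD1
  have hdist : ∀ y ∈ S, ∀ i, ‖y - x i‖ ≤ D := by
    intro y hy i
    have h1 : x i ∈ S := by rw [hx]; exact ⟨i, rfl⟩
    calc ‖y - x i‖ ≤ ‖y‖ + ‖x i‖ := norm_sub_le _ _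
      _ ≤ D0 + D0 := add_le_add (hD0 y hy) (hD0 _ h1)
      _ ≤ D := by
        rw [← two_mul]
        exact le_max_left _ _
  let δ : ℕ → ℝ := fun j => (ε / D) ^ (2 ^ (j + 1))
  have hδ : ∀ j, 0 < δ j := fun j => by positivity
  obtain ⟨t, ht⟩ := hS.elim_finite_subcover (fun j => Metric.ball (x j) (δ j))
    (fun j => Metric.isOpen_ball) (by
      intro y hy
      rw [hx] at hy
      obtain ⟨j, rfl⟩ := hy
      exact Set.mem_iUnion.2 ⟨j, Metric.mem_ball_self (hδ j)⟩)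
  obtain ⟨J, hJ⟩ : ∃ J : ℕ, ∀ j ∈ t, j < J := ⟨t.sup id + 1, fun j hj =>
    Nat.lt_succ_of_le (Finset.le_sup (f := id) hj)⟩
  let a : ℕ → ℕ := fun i => 2 ^ (J - 1 - i)
  let p : ℂ[X] := ∏ i ∈ Finset.range J, (Polynomial.X - C (x i)) ^ (a i)
  have hsum : ∑ i ∈ Finset.range J, a i + 1 = 2 ^ J := by
    have h1 : ∑ i ∈ Finset.range J, a i = ∑ i ∈ Finset.range J, 2 ^ i :=
      Finset.sum_range_reflect (fun i => 2 ^ i) J
    rw [h1]
    have h2 := Nat.geomSum_eq (le_refl 2) J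
    rw [h2]
    have h3 : 0 < 2 ^ J := by positivity
    omega
  have hmon : p.Monic := monic_prod_of_monic _ _ fun i _ => (monic_X_sub_C _).pow _
  have hdeg : p.natDegree = ∑ i ∈ Finset.range J, a i := by
    rw [natDegree_prod_of_monic _ _ fun i _ => (monic_X_sub_C _).pow _]
    refine Finset.sum_congr rfl fun i _ => ?_
    rw [(monic_X_sub_C _).natDegree_pow, natDegree_X_sub_C, mul_one]
  have hJ0 : 0 < J := by
    obtain ⟨y, hy⟩ := hne
    have := ht hy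
    simp only [Set.mem_iUnion] at this
    obtain ⟨j, hj, -⟩ := this
    exact lt_of_le_of_lt (Nat.zero_le _) (hJ j hj)
  refine ⟨p, hmon, ?_, ?_⟩
  · rw [hdeg]
    have h1 : 2 ≤ 2 ^ J := by
      calc 2 = 2 ^ 1 := rfl
        _ ≤ 2 ^ J := Nat.pow_le_pow_right (by norm_num) hJ0
    omega
  · intro y hy
    have h1 := ht hy
    simp only [Set.mem_iUnion] at h1
    obtain ⟨j, hj, hyj⟩ := h1
    rw [Metric.mem_ball, dist_eq_norm] at hyj
    have hjJ : j ∈ Finset.range J := Finset.mem_range.2 (hJ j hj)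
    have h2 : ‖p.eval y‖ = ∏ i ∈ Finset.range J, ‖y - x i‖ ^ a i := by
      simp only [p, eval_prod, norm_prod, eval_pow, norm_pow, eval_sub, eval_X, eval_C]
    rw [h2, ← Finset.mul_prod_erase _ _ hjJ, hdeg]
    set N := ∑ i ∈ Finset.range J, a i with hN
    have h3 : ∏ i ∈ (Finset.range J).erase j, ‖y - x i‖ ^ a i ≤ D ^ N := by
      calc ∏ i ∈ (Finset.range J).erase j, ‖y - x i‖ ^ a i
          ≤ ∏ i ∈ (Finset.range J).erase j, D ^ a i :=
            Finset.prod_le_prod (fun i _ => by positivity) fun i _ =>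
              pow_le_pow_left₀ (norm_nonneg _) (hdist y hy i) _
        _ = D ^ (∑ i ∈ (Finset.range J).erase j, a i) := Finset.prod_pow_eq_pow_sum _ _ _
        _ ≤ D ^ N := pow_le_pow_right₀ hD1
            (Finset.sum_le_sum_of_subset (Finset.erase_subset _ _))
    have h4 : ‖y - x j‖ ^ a j ≤ (ε / D) ^ (N + 1) := by
      calc ‖y - x j‖ ^ a j ≤ δ j ^ a j := pow_le_pow_left₀ (norm_nonneg _) hyj.le _
        _ = (ε / D) ^ (2 ^ J) := by
          simp only [δ, a]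
          rw [← pow_mul, ← pow_add]
          congr 2
          have := hJ j hj
          omega
        _ = (ε / D) ^ (N + 1) := by rw [hsum]
    calc ‖y - x j‖ ^ a j * ∏ i ∈ (Finset.range J).erase j, ‖y - x i‖ ^ a i
        ≤ (ε / D) ^ (N + 1) * D ^ N := mul_le_mul h4 h3
          (Finset.prod_nonneg fun i _ => by positivity) (by positivity)
      _ = ε ^ N * (ε / D) := by
        rw [div_pow, pow_succ, pow_succ D N]
        field_simp
      _ ≤ ε ^ N * 1 := by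
        gcongr
        rw [div_le_one hDpos]
        exact hε1.trans hD1
      _ ≤ ε0 ^ N := by
        rw [mul_one]
        exact pow_le_pow_left₀ hεpos.le (min_le_left _ _) _

theorem chebyshev_radius {S : Set ℂ} {r : ℝ} (h : ∀ x ∈ S, ‖x‖ ≤ r) : ChebyshevLE S r := by
  intro ε hε
  refine ⟨Polynomial.X, monic_X, by simp, fun x hx => ?_⟩
  rw [eval_X, natDegree_X, pow_one]
  linarith [h x hx]

variable {H : Type} [NormedAddCommGroup H] [NormedSpace ℂ H] [CompleteSpace H]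

theorem le_of_pow_le {x y : ℝ} (hx : 0 ≤ x) (hy : 0 ≤ y) {n : ℕ} (hn : 0 < n) (h : x ^ n ≤ y ^ n) :
    x ≤ y :=
  (pow_le_pow_iff_left₀ hx hy hn.ne').1 h

theorem cap_eigen [Nontrivial H] (A K : H →L[ℂ] H) {κ : ℂ} (hκ : κ ≠ 0) {u : H} (hu0 : u ≠ 0)
    (hu : K u = κ • u) {ρ : ℝ} (hρ0 : 0 ≤ ρ) (hρ : ChebyshevLE (spectrum ℂ A) ρ) :
    CapLE (Exc A K) (ρ / ‖κ‖) := by
  intro μ hμ1 hμ2 hμ3 hE b hb
  obtain ⟨R, hR⟩ := hμ3
  haveI : NullSingletonClass μ := ⟨hμ2⟩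
  rw [le_div_iff₀ (norm_pos_iff.2 hκ)]
  refine le_of_forall_pos_le_add fun ε hε => ?_
  obtain ⟨p, hp1, hp2, hp3⟩ := hρ ε hε
  have h1 := bound_eigen A K hκ hu0 hu hb hR hE hp1 hp3
  exact le_of_pow_le (by positivity) (by positivity) hp2 h1

theorem cap_rank_one [Nontrivial H] (A K : H →L[ℂ] H) {u : H} {f : H →L[ℂ] ℂ}
    (hK : ∀ x, K x = f x • u) {k : ℕ} (h0 : ∀ i < k, f ((A ^ i) u) = 0)
    (hc : f ((A ^ k) u) ≠ 0) {ρ : ℝ} (hρ0 : 0 ≤ ρ) (hρ : ChebyshevLE (spectrum ℂ A) ρ) :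
    CapLE (Exc A K) (ρ ^ (k + 1) / ‖f ((A ^ k) u)‖) := by
  intro μ hμ1 hμ2 hμ3 hE b hb
  obtain ⟨R, hR⟩ := hμ3
  haveI : NullSingletonClass μ := ⟨hμ2⟩
  rw [le_div_iff₀ (norm_pos_iff.2 hc)]
  have h2 : Tendsto (fun ε : ℝ => (ρ + ε) ^ (k + 1)) (𝓝[>] 0) (𝓝 (ρ ^ (k + 1))) := by
    have h3 : ContinuousAt (fun ε : ℝ => (ρ + ε) ^ (k + 1)) 0 := by fun_prop
    have h4 := h3.tendsto
    simp only [add_zero] at h4
    exact h4.mono_left nhdsWithin_le_nhds
  refine ge_of_tendsto h2 ?_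
  filter_upwards [self_mem_nhdsWithin] with ε hε
  obtain ⟨p, hp1, hp2, hp3⟩ := hρ ε hε
  have h1 := bound_rank_one A K hK h0 hc hb hR hE hp1 hp3
  have hε' : 0 < ε := hε
  rw [← pow_mul, mul_comm p.natDegree (k + 1), pow_mul] at h1
  exact le_of_pow_le (by positivity) (by positivity) hp2 h1

theorem subset_hull (A : H →L[ℂ] H) : spectrum ℂ A ⊆ hull A := fun l hl p => ⟨l, hl, le_rfl⟩

/-- `z` outside of the exceptional set -/
theorem outside (hX : ¬ FiniteDimensional ℂ H) (A K : H →L[ℂ] H) (hK : IsCompactOperator K) {z : ℂ}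
    (hz : z ∉ Exc A K) :
    ∃ l : ℂ, l ∉ hull A ∧ (∃ x : H, x ≠ 0 ∧ (A + z • K) x = l • x) ∧
      A + z • K ≠ l • (1 : H →L[ℂ] H) := by
  obtain ⟨l, hl1, hl2⟩ := Set.not_subset.1 hz
  refine ⟨l, hl2, ?_⟩
  exact eigen_outside hX A (z • K) (hK.smul z) hl1 (fun h => hl2 (subset_hull A h))

/-- the common invariant subspace -/
theorem common [Nontrivial H] (A K : H →L[ℂ] H) {u : H} {f : H →L[ℂ] ℂ} (hf : f ≠ 0) (hu : u ≠ 0)
    (hK : ∀ x, K x = f x • u) (h0 : ∀ i, f ((A ^ i) u) = 0) :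
    ∃ V : Submodule ℂ H, IsClosed (V : Set H) ∧ V ≠ ⊥ ∧ V ≠ ⊤ ∧
      ∀ z : ℂ, ∀ x ∈ V, (A + z • K) x ∈ V := by
  set W : Submodule ℂ H := Submodule.span ℂ (Set.range fun i : ℕ => (A ^ i) u) with hW
  have hWf : W.topologicalClosure ≤ LinearMap.ker (f : H →ₗ[ℂ] ℂ) := by
    refine Submodule.topologicalClosure_minimal _ ?_ (ContinuousLinearMap.isClosed_ker f)
    rw [hW, Submodule.span_le]
    rintro _ ⟨i, rfl⟩
    exact h0 i
  have hA : ∀ x ∈ W.topologicalClosure, A x ∈ W.topologicalClosure := by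
    have h1 : W ≤ W.topologicalClosure.comap (A : H →ₗ[ℂ] H) := by
      rw [hW, Submodule.span_le]
      rintro _ ⟨i, rfl⟩
      apply Submodule.le_topologicalClosure
      apply Submodule.subset_span
      refine ⟨i + 1, ?_⟩
      change (A ^ (i + 1)) u = A ((A ^ i) u)
      rw [pow_succ']
      rfl
    have h2 : W.topologicalClosure ≤ W.topologicalClosure.comap (A : H →ₗ[ℂ] H) :=
      Submodule.topologicalClosure_minimal _ h1
        (W.isClosed_topologicalClosure.preimage A.continuous)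
    exact fun x hx => h2 hx
  refine ⟨W.topologicalClosure, W.isClosed_topologicalClosure, ?_, ?_, ?_⟩
  · intro h
    have h1 : u ∈ W.topologicalClosure := by
      apply Submodule.le_topologicalClosure
      apply Submodule.subset_span
      exact ⟨0, by simp⟩
    rw [h, Submodule.mem_bot] at h1
    exact hu h1
  · intro h
    apply hf
    ext x
    have h1 : x ∈ W.topologicalClosure := by rw [h]; trivial
    exact hWf h1
  · intro z x hx
    have h1 : f x = 0 := hWf hx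
    have h2 : (A + z • K) x = A x := by
      change A x + z • K x = A x
      rw [hK, h1, zero_smul, smul_zero, add_zero]
    rw [h2]
    exact hA x hx

/-- nonzero points of the spectrum of a compact operator -/
theorem compact_eigen (K : H →L[ℂ] H) (hK : IsCompactOperator K) {κ : ℂ} (hκ : κ ≠ 0)
    (h : κ ∈ spectrum ℂ K) : ∃ u : H, u ≠ 0 ∧ K u = κ • u := by
  have h1 : Module.End.HasEigenvalue (K : H →ₗ[ℂ] H) κ :=
    (hK.hasEigenvalue_iff_mem_spectrum hκ).2 h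
  obtain ⟨x, hx⟩ := h1.exists_hasEigenvector
  exact ⟨x, hx.2, hx.apply_eq_smul⟩

end Pool.Agent.U667.CP
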