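import Pool.Agent.U667.CP.Op

/-!
Couplings `A + z K` without spectrum outside of the hull of the spectrum of `A`: capacity.
-/

set_option autoImplicit false

namespace Pool.Agent.U667.CP

open MeasureTheory Filter Topology Polynomial

variable {H : Type} [NormedAddCommGroup H] [NormedSpace ℂ H] [CompleteSpace H]

/-- Gelfand's formula as an inequality -/
theorem eventually_pow {B : Type} [NormedRing B] [NormedAlgebra ℂ B] [CompleteSpace B] (a : B)
    {M m : ℝ} (hM : ∀ l ∈ spectrum ℂ a, ‖l‖ ≤ M) (hM0 : 0 ≤ M) (hm : M < m) :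
    ∀ᶠ N : ℕ in atTop, ‖a ^ N‖ ≤ m ^ N := by
  have h1 := spectrum.pow_norm_pow_one_div_tendsto_nhds_spectralRadius a
  have h2 : spectralRadius ℂ a ≤ ENNReal.ofReal M := by
    refine iSup₂_le fun l hl => ?_
    have h0 : (‖l‖₊ : ENNReal) = ENNReal.ofReal ‖l‖ := by
      rw [← coe_nnnorm l, ENNReal.ofReal_coe_nnreal]
    rw [h0]
    exact ENNReal.ofReal_le_ofReal (hM l hl)
  have h3 : spectralRadius ℂ a < ENNReal.ofReal m :=
    lt_of_le_of_lt h2 ((ENNReal.ofReal_lt_ofReal_iff (lt_of_le_of_lt hM0 hm)).2 hm)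
  filter_upwards [h1.eventually (gt_mem_nhds h3), eventually_gt_atTop 0] with N hN hN0
  have h4 : ‖a ^ N‖ ^ (1 / N : ℝ) < m := by
    by_contra hcon
    push Not at hcon
    exact absurd hN (not_lt.2 (ENNReal.ofReal_le_ofReal hcon))
  have hN' : (0 : ℝ) < N := by exact_mod_cast hN0
  calc ‖a ^ N‖ = (‖a ^ N‖ ^ (1 / N : ℝ)) ^ (N : ℝ) := by
        rw [← Real.rpow_mul (norm_nonneg _), one_div, inv_mul_cancel₀ (ne_of_gt hN'), Real.rpow_one]
    _ ≤ m ^ (N : ℝ) := Real.rpow_le_rpow (by positivity) h4.le hN'.le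
    _ = m ^ N := Real.rpow_natCast m N

/-- the polynomially convex hull of the spectrum -/
def hull (A : H →L[ℂ] H) : Set ℂ :=
  {l | ∀ p : ℂ[X], ∃ n ∈ spectrum ℂ A, ‖p.eval l‖ ≤ ‖p.eval n‖}

theorem continuous_aeval (A K : H →L[ℂ] H) (P : ℂ[X]) :
    Continuous fun z : ℂ => aeval (A + z • K) P := by
  simp only [aeval_eq_sum_range]
  fun_prop

/-- the inequality for sequences of leading coefficients -/
theorem main_ineq [Nontrivial H] (A K : H →L[ℂ] H) (u : H) (f : H →L[ℂ] ℂ) {μ : Measure ℂ}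
    [IsProbabilityMeasure μ] [NullSingletonClass μ] {b R : ℝ} (hμ : PotGE μ b)
    (hR : ∀ᵐ z ∂μ, ‖z‖ ≤ R) {p : ℂ[X]} {M : ℝ} (hM0 : 0 ≤ M)
    (hM : ∀ᵐ z ∂μ, ∀ l ∈ spectrum ℂ (A + z • K), ‖p.eval l‖ ≤ M)
    {C0 l : ℝ} {d e : ℕ}
    (hQ : ∀ N, Pol A K u f (p ^ N * X ^ e) ≠ 0 ∧ (Pol A K u f (p ^ N * X ^ e)).natDegree = d * N ∧
      N * l - C0 ≤ Real.log ‖(Pol A K u f (p ^ N * X ^ e)).leadingCoeff‖) :
    Real.exp (l + d * b) ≤ M := by
  have hR' : ∀ᵐ z ∂μ, ‖z‖ ≤ |R| := by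
    filter_upwards [hR] with z hz using hz.trans (le_abs_self R)
  refine core hμ hR' (fun z : ℂ => aeval (A + z • K) p) (continuous_aeval A K p) hM0 ?_
    (C := ‖f‖ * ((‖A‖ + |R| * ‖K‖) ^ e * ‖u‖) + 1) (by positivity) (C0 := C0)
    (fun N => Pol A K u f (p ^ N * X ^ e)) ?_ (fun N => (hQ N).1) (fun N => (hQ N).2.2)
    (fun N => (hQ N).2.1)
  · filter_upwards [hM] with z hz m hm
    refine eventually_pow _ ?_ hM0 hm
    intro y hy
    rw [spectrum.map_polynomial_aeval_of_nonempty (A + z • K) p (spectrum.nonempty _)] at hy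
    obtain ⟨l, hl, rfl⟩ := hy
    exact hz l hl
  · intro N z hz
    rw [eval_Pol, map_mul, map_pow, map_pow, aeval_X, ContinuousLinearMap.mul_apply]
    have h1 : ‖A + z • K‖ ≤ ‖A‖ + |R| * ‖K‖ := by
      refine (norm_add_le _ _).trans ?_
      rw [norm_smul]
      gcongr
    have h2 : ‖((A + z • K) ^ e) u‖ ≤ (‖A‖ + |R| * ‖K‖) ^ e * ‖u‖ := by
      refine (ContinuousLinearMap.le_opNorm _ _).trans ?_
      gcongr
      exact (norm_pow_le _ _).trans (pow_le_pow_left₀ (norm_nonneg _) h1 e)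
    calc ‖f ((aeval (A + z • K) p ^ N) (((A + z • K) ^ e) u))‖
        ≤ ‖f‖ * (‖aeval (A + z • K) p ^ N‖ * ((‖A‖ + |R| * ‖K‖) ^ e * ‖u‖)) := by
          refine (f.le_opNorm _).trans ?_
          gcongr
          refine (ContinuousLinearMap.le_opNorm _ _).trans ?_
          gcongr
      _ = (‖f‖ * ((‖A‖ + |R| * ‖K‖) ^ e * ‖u‖)) * ‖aeval (A + z • K) p ^ N‖ := by ring
      _ ≤ _ := by
          gcongr
          linarith

/-- part 1: eigenvalues of `K` -/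
theorem bound_eigen [Nontrivial H] (A K : H →L[ℂ] H) {κ : ℂ} (hκ : κ ≠ 0) {u : H} (hu0 : u ≠ 0)
    (hu : K u = κ • u) {μ : Measure ℂ}
    [IsProbabilityMeasure μ] [NullSingletonClass μ] {b R : ℝ} (hμ : PotGE μ b)
    (hR : ∀ᵐ z ∂μ, ‖z‖ ≤ R) (hE : ∀ᵐ z ∂μ, spectrum ℂ (A + z • K) ⊆ hull A)
    {p : ℂ[X]} (hp : p.Monic) {M : ℝ} (hM : ∀ n ∈ spectrum ℂ A, ‖p.eval n‖ ≤ M) :
    (Real.exp b * ‖κ‖) ^ p.natDegree ≤ M := by
  obtain ⟨n0, hn0⟩ := spectrum.nonempty A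
  have hM0 : 0 ≤ M := (norm_nonneg _).trans (hM n0 hn0)
  obtain ⟨f, hf1, hf⟩ := exists_dual_vector ℂ u (norm_ne_zero_iff.2 hu0)
  have hfu : f u ≠ 0 := by
    rw [hf]
    simpa using hu0
  have hE' : ∀ᵐ z ∂μ, ∀ l ∈ spectrum ℂ (A + z • K), ‖p.eval l‖ ≤ M := by
    filter_upwards [hE] with z hz l hl
    obtain ⟨n, hn, h1⟩ := hz hl p
    exact h1.trans (hM n hn)
  have h1 := main_ineq A K u f hμ hR hM0 hE' (C0 := |Real.log ‖f u‖|)
    (l := p.natDegree * Real.log ‖κ‖) (d := p.natDegree) (e := 0) ?_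
  · have h2 : (p.natDegree : ℝ) * Real.log ‖κ‖ + p.natDegree * b =
        p.natDegree * (b + Real.log ‖κ‖) := by ring
    rw [h2, Real.exp_nat_mul, Real.exp_add, Real.exp_log (norm_pos_iff.2 hκ)] at h1
    exact h1
  · intro N
    have hmon : (p ^ N * (Polynomial.X : ℂ[X]) ^ 0).Monic := by
      rw [pow_zero, mul_one]
      exact hp.pow N
    have hdeg : (p ^ N * (Polynomial.X : ℂ[X]) ^ 0).natDegree = p.natDegree * N := by
      rw [pow_zero, mul_one, hp.natDegree_pow, mul_comm]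
    have h2 := lead A K u (f := f) hmon hdeg (j := p.natDegree * N)
      (a := κ ^ (p.natDegree * N) * f u) (mul_ne_zero (pow_ne_zero _ hκ) hfu)
      (by rw [V_diag A K u hu, map_smul, smul_eq_mul])
      (fun m hm => by rw [V_gt A K u m _ hm, map_zero])
      (fun j' hj' m hm => by rw [V_gt A K u m j' (lt_of_le_of_lt hm hj'), map_zero])
    refine ⟨h2.1, h2.2.1, ?_⟩
    rw [h2.2.2, norm_mul, norm_pow, Real.log_mul (pow_ne_zero _ (norm_ne_zero_iff.2 hκ))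
      (norm_ne_zero_iff.2 hfu), Real.log_pow]
    have h3 := neg_abs_le (Real.log ‖f u‖)
    push_cast
    nlinarith

/-- part 2: rank one -/
theorem bound_rank_one [Nontrivial H] (A K : H →L[ℂ] H) {u : H} {f : H →L[ℂ] ℂ}
    (hK : ∀ x, K x = f x • u) {k : ℕ} (h0 : ∀ i < k, f ((A ^ i) u) = 0)
    (hc : f ((A ^ k) u) ≠ 0) {μ : Measure ℂ}
    [IsProbabilityMeasure μ] [NullSingletonClass μ] {b R : ℝ} (hμ : PotGE μ b)
    (hR : ∀ᵐ z ∂μ, ‖z‖ ≤ R) (hE : ∀ᵐ z ∂μ, spectrum ℂ (A + z • K) ⊆ hull A)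
    {p : ℂ[X]} (hp : p.Monic) {M : ℝ} (hM : ∀ n ∈ spectrum ℂ A, ‖p.eval n‖ ≤ M) :
    (Real.exp b * ‖f ((A ^ k) u)‖) ^ p.natDegree ≤ M ^ (k + 1) := by
  obtain ⟨n0, hn0⟩ := spectrum.nonempty A
  have hM0 : 0 ≤ M := (norm_nonneg _).trans (hM n0 hn0)
  have hE' : ∀ᵐ z ∂μ, ∀ l ∈ spectrum ℂ (A + z • K), ‖(p ^ (k + 1)).eval l‖ ≤ M ^ (k + 1) := by
    filter_upwards [hE] with z hz l hl
    obtain ⟨n, hn, h1⟩ := hz hl p
    rw [eval_pow, norm_pow]
    exact pow_le_pow_left₀ (norm_nonneg _) (h1.trans (hM n hn)) _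
  have h1 := main_ineq A K u f hμ hR (pow_nonneg hM0 (k + 1)) hE'
    (C0 := |Real.log ‖f ((A ^ k) u)‖|)
    (l := p.natDegree * Real.log ‖f ((A ^ k) u)‖) (d := p.natDegree) (e := k) ?_
  · have h2 : (p.natDegree : ℝ) * Real.log ‖f ((A ^ k) u)‖ + p.natDegree * b =
        p.natDegree * (b + Real.log ‖f ((A ^ k) u)‖) := by ring
    rw [h2, Real.exp_nat_mul, Real.exp_add, Real.exp_log (norm_pos_iff.2 hc)] at h1
    exact h1
  · intro N
    have hmon : ((p ^ (k + 1)) ^ N * (Polynomial.X : ℂ[X]) ^ k).Monic :=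
      ((hp.pow _).pow N).mul (monic_X_pow k)
    have hdeg : ((p ^ (k + 1)) ^ N * (Polynomial.X : ℂ[X]) ^ k).natDegree =
        k + (k + 1) * (p.natDegree * N) := by
      rw [Monic.natDegree_mul ((hp.pow _).pow N) (monic_X_pow k), (hp.pow _).natDegree_pow,
        hp.natDegree_pow, natDegree_X_pow]
      ring
    have h2 := lead A K u (f := f) hmon hdeg (j := p.natDegree * N)
      (a := f ((A ^ k) u) ^ (p.natDegree * N + 1)) (pow_ne_zero _ hc)
      (coeff_rank_one A K u hK h0 _).2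
      (fun m hm => (coeff_rank_one A K u hK h0 _).1 m hm)
      (fun j' hj' m hm => (coeff_rank_one A K u hK h0 _).1 m (by
        have h5 : (k + 1) * (p.natDegree * N) < (k + 1) * j' :=
          Nat.mul_lt_mul_of_pos_left hj' (Nat.succ_pos k)
        omega))
    refine ⟨h2.1, h2.2.1, ?_⟩
    rw [h2.2.2, norm_pow, Real.log_pow, Nat.cast_add, Nat.cast_mul, Nat.cast_one]
    have h3 := neg_abs_le (Real.log ‖f ((A ^ k) u)‖)
    nlinarith

end Pool.Agent.U667.CP
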