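import Pool.Agent.U667.CP.Pot

/-!
The operators `A + z K`: leading coefficients of `f (q (A + z K) u)` as polynomials in `z`.
-/

set_option autoImplicit false

namespace Pool.Agent.U667.CP

open MeasureTheory Filter Topology Polynomial

variable {X : Type} [NormedAddCommGroup X] [NormedSpace ℂ X]

/-- the coefficient of `z ^ i` in `(A + z K) ^ m u` -/
noncomputable def V (A K : X →L[ℂ] X) (u : X) : ℕ → ℕ → X
  | 0, 0 => u
  | 0, _ + 1 => 0
  | m + 1, 0 => A (V A K u m 0)
  | m + 1, i + 1 => A (V A K u m (i + 1)) + K (V A K u m i)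

variable (A K : X →L[ℂ] X) (u : X)

theorem V_gt : ∀ m i, m < i → V A K u m i = 0 := by
  intro m
  induction m with
  | zero =>
    intro i hi
    obtain ⟨j, rfl⟩ := Nat.exists_eq_succ_of_ne_zero (ne_of_gt hi)
    rfl
  | succ m ih =>
    intro i hi
    obtain ⟨j, rfl⟩ := Nat.exists_eq_succ_of_ne_zero (ne_of_gt (lt_of_le_of_lt (Nat.zero_le _) hi))
    show A (V A K u m (j + 1)) + K (V A K u m j) = 0
    rw [ih (j + 1) (by omega), ih j (by omega), map_zero, map_zero, add_zero]

theorem V_sum (z : ℂ) (m : ℕ) :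
    ((A + z • K) ^ m) u = ∑ i ∈ Finset.range (m + 1), z ^ i • V A K u m i := by
  induction m with
  | zero => simp [V]
  | succ m ih =>
    rw [pow_succ', ContinuousLinearMap.mul_apply, ih, map_sum]
    have h1 : ∀ i, (A + z • K) (z ^ i • V A K u m i) =
        z ^ i • A (V A K u m i) + z ^ (i + 1) • K (V A K u m i) := by
      intro i
      rw [map_smul, ContinuousLinearMap.add_apply, ContinuousLinearMap.smul_apply, smul_add,
        smul_smul, pow_succ]
    simp only [h1]
    rw [Finset.sum_add_distrib, Finset.sum_range_succ' (fun i => z ^ i • V A K u (m + 1) i)]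
    have h2 : ∀ i, z ^ (i + 1) • V A K u (m + 1) (i + 1) =
        z ^ (i + 1) • A (V A K u m (i + 1)) + z ^ (i + 1) • K (V A K u m i) := by
      intro i
      rw [← smul_add]
      rfl
    simp only [h2]
    rw [Finset.sum_add_distrib]
    have h3 : z ^ 0 • V A K u (m + 1) 0 = z ^ 0 • A (V A K u m 0) := rfl
    rw [h3, Finset.sum_range_succ (fun i => z ^ (i + 1) • A (V A K u m (i + 1))),
      V_gt A K u m (m + 1) (by omega), map_zero, smul_zero, add_zero,
      Finset.sum_range_succ' (fun i => z ^ i • A (V A K u m i))]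
    abel

/-- `f ((A + z K) ^ m u)` as a polynomial -/
noncomputable def sp (f : X →L[ℂ] ℂ) (m : ℕ) : ℂ[X] :=
  ∑ i ∈ Finset.range (m + 1), monomial i (f (V A K u m i))

theorem coeff_sp (f : X →L[ℂ] ℂ) (m j : ℕ) : (sp A K u f m).coeff j = f (V A K u m j) := by
  rw [sp, finset_sum_coeff]
  simp only [coeff_monomial]
  rw [Finset.sum_ite_eq']
  split_ifs with h
  · rfl
  · rw [V_gt A K u m j (by simpa using h), map_zero]

theorem eval_sp (f : X →L[ℂ] ℂ) (m : ℕ) (z : ℂ) :
    (sp A K u f m).eval z = f (((A + z • K) ^ m) u) := by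
  rw [sp, V_sum, map_sum, eval_finsetSum]
  refine Finset.sum_congr rfl fun i _ => ?_
  rw [eval_monomial, map_smul, smul_eq_mul, mul_comm]

/-- `f (q (A + z K) u)` as a polynomial -/
noncomputable def Pol (f : X →L[ℂ] ℂ) (q : ℂ[X]) : ℂ[X] :=
  ∑ m ∈ Finset.range (q.natDegree + 1), C (q.coeff m) * sp A K u f m

theorem eval_Pol (f : X →L[ℂ] ℂ) (q : ℂ[X]) (z : ℂ) :
    (Pol A K u f q).eval z = f ((aeval (A + z • K) q) u) := by
  rw [Pol, eval_finsetSum, aeval_eq_sum_range, ContinuousLinearMap.sum_apply, map_sum]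
  refine Finset.sum_congr rfl fun m _ => ?_
  rw [eval_mul, eval_C, eval_sp, ContinuousLinearMap.smul_apply, map_smul, smul_eq_mul]

theorem coeff_Pol (f : X →L[ℂ] ℂ) (q : ℂ[X]) (j : ℕ) :
    (Pol A K u f q).coeff j = ∑ m ∈ Finset.range (q.natDegree + 1), q.coeff m * f (V A K u m j) := by
  rw [Pol, finset_sum_coeff]
  refine Finset.sum_congr rfl fun m _ => ?_
  rw [coeff_C_mul, coeff_sp]

/-- a criterion for the leading coefficient -/
theorem lead {f : X →L[ℂ] ℂ} {q : ℂ[X]} (hq : q.Monic) {L j : ℕ} (hL : q.natDegree = L) {a : ℂ}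
    (ha : a ≠ 0) (h1 : f (V A K u L j) = a) (h2 : ∀ m < L, f (V A K u m j) = 0)
    (h3 : ∀ j' > j, ∀ m ≤ L, f (V A K u m j') = 0) :
    Pol A K u f q ≠ 0 ∧ (Pol A K u f q).natDegree = j ∧ (Pol A K u f q).leadingCoeff = a := by
  have hc : (Pol A K u f q).coeff j = a := by
    rw [coeff_Pol, hL, Finset.sum_range_succ, Finset.sum_eq_zero, zero_add, h1]
    · have : q.coeff L = 1 := by rw [← hL]; exact hq
      rw [this, one_mul]
    · intro m hm
      rw [h2 m (Finset.mem_range.1 hm), mul_zero]
  have hz : ∀ j' > j, (Pol A K u f q).coeff j' = 0 := by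
    intro j' hj'
    rw [coeff_Pol, hL]
    refine Finset.sum_eq_zero fun m hm => ?_
    rw [h3 j' hj' m (by rw [Finset.mem_range] at hm; omega), mul_zero]
  have hn0 : Pol A K u f q ≠ 0 := by
    intro h0
    rw [h0, coeff_zero] at hc
    exact ha hc.symm
  have hnd : (Pol A K u f q).natDegree = j := by
    apply le_antisymm
    · rw [natDegree_le_iff_coeff_eq_zero]
      exact fun N hN => hz N hN
    · exact le_natDegree_of_ne_zero (by rw [hc]; exact ha)
  exact ⟨hn0, hnd, by rw [leadingCoeff, hnd, hc]⟩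

/-- the diagonal coefficients -/
theorem V_diag {κ : ℂ} (hu : K u = κ • u) (m : ℕ) : V A K u m m = κ ^ m • u := by
  induction m with
  | zero => simp [V]
  | succ m ih =>
    show A (V A K u m (m + 1)) + K (V A K u m m) = _
    rw [V_gt A K u m (m + 1) (by omega), map_zero, zero_add, ih, map_smul, hu, smul_smul, pow_succ]

theorem V_zero_col (m : ℕ) : V A K u m 0 = (A ^ m) u := by
  induction m with
  | zero => simp [V]
  | succ m ih =>
    show A (V A K u m 0) = _
    rw [ih, pow_succ', ContinuousLinearMap.mul_apply]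

/-- the recursion for an operator of rank one -/
theorem V_rank_one {f : X →L[ℂ] ℂ} (hK : ∀ x, K x = f x • u) (j m : ℕ) :
    V A K u m (j + 1) = ∑ i ∈ Finset.range m, f (V A K u (m - 1 - i) j) • (A ^ i) u := by
  induction m with
  | zero => rfl
  | succ m ih =>
    show A (V A K u m (j + 1)) + K (V A K u m j) = _
    rw [ih, hK, map_sum, Finset.sum_range_succ']
    congr 1
    refine Finset.sum_congr rfl fun i hi => ?_
    have h1 : m + 1 - 1 - (i + 1) = m - 1 - i := by
      have := Finset.mem_range.1 hi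
      omega
    rw [map_smul, h1, pow_succ', ContinuousLinearMap.mul_apply]

theorem coeff_rank_one {f : X →L[ℂ] ℂ} (hK : ∀ x, K x = f x • u) {k : ℕ}
    (h0 : ∀ i < k, f ((A ^ i) u) = 0) (j : ℕ) :
    (∀ m < k + (k + 1) * j, f (V A K u m j) = 0) ∧
      f (V A K u (k + (k + 1) * j) j) = f ((A ^ k) u) ^ (j + 1) := by
  induction j with
  | zero =>
    refine ⟨fun m hm => ?_, ?_⟩
    · rw [V_zero_col]
      exact h0 m (by simpa using hm)
    · rw [V_zero_col]
      simp
  | succ j ih =>
    obtain ⟨ih1, ih2⟩ := ih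
    have key : ∀ m, f (V A K u m (j + 1)) =
        ∑ i ∈ Finset.range m, f (V A K u (m - 1 - i) j) * f ((A ^ i) u) := by
      intro m
      rw [V_rank_one A K u hK, map_sum]
      refine Finset.sum_congr rfl fun i _ => ?_
      rw [map_smul, smul_eq_mul]
    refine ⟨fun m hm => ?_, ?_⟩
    · rw [key]
      refine Finset.sum_eq_zero fun i hi => ?_
      rw [Finset.mem_range] at hi
      by_cases hik : i < k
      · rw [h0 i hik, mul_zero]
      · rw [ih1 (m - 1 - i) (by
          have h1 : (k + 1) * (j + 1) = (k + 1) * j + (k + 1) := by ring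
          omega), zero_mul]
    · rw [key, Finset.sum_eq_single k]
      · have h1 : k + (k + 1) * (j + 1) - 1 - k = k + (k + 1) * j := by
          have h2 : (k + 1) * (j + 1) = (k + 1) * j + (k + 1) := by ring
          omega
        rw [h1, ih2, pow_succ (f ((A ^ k) u)) (j + 1)]
      · intro i hi hik
        rw [Finset.mem_range] at hi
        rcases lt_or_gt_of_ne hik with h | h
        · rw [h0 i h, mul_zero]
        · rw [ih1 (k + (k + 1) * (j + 1) - 1 - i) (by
            have h1 : (k + 1) * (j + 1) = (k + 1) * j + (k + 1) := by ring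
            omega), zero_mul]
      · intro h
        exfalso
        apply h
        rw [Finset.mem_range]
        have h1 : (k + 1) * (j + 1) = (k + 1) * j + (k + 1) := by ring
        omega

end Pool.Agent.U667.CP
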