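import Mathlib

/-!
Logarithmic potentials and polynomials with values controlled by powers of operators.
-/

set_option autoImplicit false

namespace Pool.Agent.U667.CP

open MeasureTheory Filter Topology Polynomial

/-- the logarithmic potential of `μ` exists everywhere and is at least `b` -/
def PotGE (μ : Measure ℂ) (b : ℝ) : Prop :=
  ∀ ζ : ℂ, Integrable (fun z => Real.log ‖ζ - z‖) μ ∧ b ≤ ∫ z, Real.log ‖ζ - z‖ ∂μ

theorem ae_notMem {μ : Measure ℂ} [NullSingletonClass μ] {s : Set ℂ} (hs : s.Finite) : ∀ᵐ z ∂μ, z ∉ s :=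
  compl_mem_ae_iff.2 (hs.measure_zero μ)

theorem prod_bound {μ : Measure ℂ} [IsProbabilityMeasure μ] [NullSingletonClass μ] {b : ℝ} (h : PotGE μ b)
    {a : ℂ} (ha : a ≠ 0) (s : Multiset ℂ) :
    Integrable (fun z => Real.log ‖a * (s.map (fun r => z - r)).prod‖) μ ∧
      Real.log ‖a‖ + Multiset.card s * b ≤
        ∫ z, Real.log ‖a * (s.map (fun r => z - r)).prod‖ ∂μ := by
  induction s using Multiset.induction_on with
  | empty =>
    simp
  | cons r s ih =>
    obtain ⟨ih1, ih2⟩ := ih
    obtain ⟨h1, h2⟩ := h r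
    have hne : ∀ᵐ z ∂μ, z ∉ ((r ::ₘ s).toFinset : Set ℂ) := ae_notMem (Finset.finite_toSet _)
    have heq : (fun z => Real.log ‖a * ((r ::ₘ s).map (fun r => z - r)).prod‖) =ᵐ[μ]
        fun z => Real.log ‖r - z‖ + Real.log ‖a * (s.map (fun r => z - r)).prod‖ := by
      filter_upwards [hne] with z hz
      have hz1 : z ≠ r := by
        rintro rfl
        exact hz (by simp)
      have hz2 : (s.map (fun r => z - r)).prod ≠ 0 := by
        intro h0
        rw [Multiset.prod_eq_zero_iff, Multiset.mem_map] at h0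
        obtain ⟨y, hy, hy2⟩ := h0
        rw [sub_eq_zero] at hy2
        subst hy2
        exact hz (by simp [hy])
      rw [Multiset.map_cons, Multiset.prod_cons, ← Real.log_mul (by
        rw [norm_ne_zero_iff, sub_ne_zero]
        exact hz1.symm) (norm_ne_zero_iff.2 (mul_ne_zero ha hz2)), ← norm_mul, ← norm_neg]
      congr 2
      ring
    refine ⟨(h1.add ih1).congr heq.symm, ?_⟩
    rw [integral_congr_ae heq, integral_add h1 ih1, Multiset.card_cons]
    push_cast
    linarith

theorem poly_bound {μ : Measure ℂ} [IsProbabilityMeasure μ] [NullSingletonClass μ] {b : ℝ} (h : PotGE μ b)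
    {P : ℂ[X]} (hP : P ≠ 0) :
    Integrable (fun z => Real.log ‖P.eval z‖) μ ∧
      Real.log ‖P.leadingCoeff‖ + P.natDegree * b ≤ ∫ z, Real.log ‖P.eval z‖ ∂μ := by
  have h1 := prod_bound h (leadingCoeff_ne_zero.2 hP) P.roots
  have h2 : ∀ z, P.eval z = P.leadingCoeff * (P.roots.map (fun r => z - r)).prod := fun z =>
    (IsAlgClosed.splits P).eval_eq_prod_roots z
  have h3 : Multiset.card P.roots = P.natDegree := IsAlgClosed.card_roots_eq_natDegree
  simp only [← h2, h3] at h1
  exact h1

/-- the core inequality -/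
theorem core {μ : Measure ℂ} [IsProbabilityMeasure μ] [NullSingletonClass μ] {b R : ℝ} (hμ : PotGE μ b)
    (hR : ∀ᵐ z ∂μ, ‖z‖ ≤ R) {B : Type} [NormedRing B] [NormOneClass B] (S : ℂ → B)
    (hS : Continuous S) {M : ℝ} (hM0 : 0 ≤ M)
    (hM : ∀ᵐ z ∂μ, ∀ m : ℝ, M < m → ∀ᶠ N : ℕ in atTop, ‖S z ^ N‖ ≤ m ^ N)
    {C C0 l : ℝ} (hC : 0 < C) {d : ℕ} (Q : ℕ → ℂ[X])
    (hQb : ∀ N z, ‖z‖ ≤ R → ‖(Q N).eval z‖ ≤ C * ‖S z ^ N‖)
    (hQ0 : ∀ N, Q N ≠ 0) (hlead : ∀ N : ℕ, N * l - C0 ≤ Real.log ‖(Q N).leadingCoeff‖)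
    (hdeg : ∀ N, (Q N).natDegree = d * N) : Real.exp (l + d * b) ≤ M := by
  refine le_of_forall_gt_imp_ge_of_dense fun m hm => ?_
  have hm0 : 0 < m := lt_of_le_of_lt hM0 hm
  -- a bound for `‖S z‖` on the ball
  obtain ⟨D, hD⟩ : ∃ D : ℝ, ∀ z : ℂ, ‖z‖ ≤ R → ‖S z‖ ≤ D := by
    have hc : IsCompact (Metric.closedBall (0 : ℂ) R) := isCompact_closedBall 0 R
    obtain ⟨D, hD⟩ := hc.exists_bound_of_continuousOn hS.continuousOn
    exact ⟨D, fun z hz => hD z (by simpa using hz)⟩
  let g : ℕ → ℂ → ℝ := fun N z => (N : ℝ)⁻¹ * Real.posLog (‖S z ^ N‖ / m ^ N)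
  have hgm : ∀ N, Measurable (g N) := by
    intro N
    have h1 : Continuous fun z => ‖S z ^ N‖ / m ^ N := ((hS.pow N).norm).div_const _
    exact ((Real.continuous_posLog.comp h1).measurable).const_mul _
  have hg0 : ∀ N z, 0 ≤ g N z := fun N z =>
    mul_nonneg (by positivity) Real.posLog_nonneg
  have hgb : ∀ N z, ‖z‖ ≤ R → g N z ≤ Real.posLog (D / m) := by
    intro N z hz
    rcases Nat.eq_zero_or_pos N with rfl | hN
    · simp only [g, Nat.cast_zero, inv_zero, zero_mul]
      exact Real.posLog_nonneg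
    · have hN' : (0 : ℝ) < N := by exact_mod_cast hN
      have h1 : ‖S z ^ N‖ / m ^ N ≤ (D / m) ^ N := by
        rw [div_pow]
        refine div_le_div_of_nonneg_right ?_ (by positivity)
        exact (norm_pow_le _ _).trans (pow_le_pow_left₀ (norm_nonneg _) (hD z hz) N)
      have h2 : Real.posLog (‖S z ^ N‖ / m ^ N) ≤ N * Real.posLog (D / m) := by
        refine (Real.posLog_le_posLog (by positivity) h1).trans (le_of_eq ?_)
        have hD0 : 0 ≤ D := (norm_nonneg _).trans (hD z hz)
        exact Real.posLog_pow N (D / m)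
      simp only [g]
      rw [inv_mul_le_iff₀ hN']
      exact h2
  have hgt : Tendsto (fun N => ∫ z, g N z ∂μ) atTop (𝓝 0) := by
    have h1 : Tendsto (fun N => ∫ z, g N z ∂μ) atTop (𝓝 (∫ z, (0 : ℝ) ∂μ)) := by
      refine tendsto_integral_of_dominated_convergence (fun _ => Real.posLog (D / m))
        (fun N => (hgm N).aestronglyMeasurable) (integrable_const _) ?_ ?_
      · intro N
        filter_upwards [hR] with z hz
        rw [Real.norm_eq_abs, abs_of_nonneg (hg0 N z)]
        exact hgb N z hz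
      · filter_upwards [hM] with z hz
        refine tendsto_const_nhds.congr' ?_
        filter_upwards [hz m hm] with N hN
        simp only [g]
        have h2 : ‖S z ^ N‖ / m ^ N ≤ 1 := by
          rw [div_le_one (by positivity)]
          exact hN
        rw [(Real.posLog_eq_zero_iff _).2 (by
          rw [abs_of_nonneg (by positivity)]
          exact h2), mul_zero]
    simpa using h1
  -- the inequality for every `N`
  have hN : ∀ N : ℕ, N * (l + d * b) ≤ C0 + Real.log C + N * Real.log m + N * ∫ z, g N z ∂μ := by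
    intro N
    obtain ⟨h1, h2⟩ := poly_bound hμ (hQ0 N)
    have hgi : Integrable (g N) μ := by
      refine Integrable.of_bound (hgm N).aestronglyMeasurable (Real.posLog (D / m)) ?_
      filter_upwards [hR] with z hz
      rw [Real.norm_eq_abs, abs_of_nonneg (hg0 N z)]
      exact hgb N z hz
    have h3 : ∫ z, Real.log ‖(Q N).eval z‖ ∂μ ≤
        ∫ z, (Real.log C + N * Real.log m + N * g N z) ∂μ := by
      refine integral_mono_ae h1 ((integrable_const _).add (hgi.const_mul _)) ?_
      have hroots : ∀ᵐ z ∂μ, z ∉ ((Q N).roots.toFinset : Set ℂ) :=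
        ae_notMem (Finset.finite_toSet _)
      filter_upwards [hR, hroots] with z hz hzr
      have hz0 : (Q N).eval z ≠ 0 := by
        intro h0
        apply hzr
        simp [mem_roots (hQ0 N), IsRoot, h0]
      have h4 := hQb N z hz
      have h5 : 0 < ‖(Q N).eval z‖ := norm_pos_iff.2 hz0
      have h6 : 0 < ‖S z ^ N‖ := by
        by_contra hcon
        have : ‖S z ^ N‖ = 0 := le_antisymm (not_lt.1 hcon) (norm_nonneg _)
        rw [this, mul_zero] at h4
        linarith
      have h7 : Real.log ‖(Q N).eval z‖ ≤ Real.log C + Real.log ‖S z ^ N‖ := by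
        rw [← Real.log_mul (ne_of_gt hC) (ne_of_gt h6)]
        exact Real.log_le_log h5 h4
      have h8 : Real.log ‖S z ^ N‖ = N * Real.log m + Real.log (‖S z ^ N‖ / m ^ N) := by
        rw [Real.log_div (ne_of_gt h6) (by positivity), Real.log_pow]
        ring
      have h9 : Real.log (‖S z ^ N‖ / m ^ N) ≤ Real.posLog (‖S z ^ N‖ / m ^ N) :=
        le_max_right _ _
      have h10 : Real.posLog (‖S z ^ N‖ / m ^ N) = N * g N z ∨ N = 0 := by
        rcases Nat.eq_zero_or_pos N with h0 | hN
        · exact Or.inr h0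
        · left
          have : (N : ℝ) ≠ 0 := by positivity
          simp only [g]
          rw [← mul_assoc, mul_inv_cancel₀ this, one_mul]
      rcases h10 with h10 | h10
      · linarith
      · subst h10
        simp only [pow_zero, norm_one, div_one] at *
        simp at h7 ⊢
        linarith
    rw [integral_add (integrable_const _) (hgi.const_mul _), integral_const_mul] at h3
    simp only [integral_const, probReal_univ, one_smul] at h3
    have h4 := hlead N
    rw [hdeg N] at h2
    push_cast at h2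
    nlinarith
  -- divide by `N`
  have hlim : Tendsto (fun N : ℕ => (C0 + Real.log C) / N + Real.log m + ∫ z, g N z ∂μ) atTop
      (𝓝 (0 + Real.log m + 0)) :=
    ((tendsto_const_div_atTop_nhds_zero_nat _).add tendsto_const_nhds).add hgt
  have h5 : l + d * b ≤ 0 + Real.log m + 0 := by
    refine ge_of_tendsto hlim ?_
    filter_upwards [eventually_gt_atTop 0] with N hN0
    have hN' : (0 : ℝ) < N := by exact_mod_cast hN0
    have h6 := hN N
    have h7 : (C0 + Real.log C) / N + Real.log m + ∫ z, g N z ∂μ =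
        (C0 + Real.log C + N * Real.log m + N * ∫ z, g N z ∂μ) / N := by
      field_simp
    rw [h7, le_div_iff₀ hN']
    linarith
  rw [zero_add, add_zero] at h5
  calc Real.exp (l + d * b) ≤ Real.exp (Real.log m) := Real.exp_le_exp.2 h5
    _ = m := Real.exp_log hm0

end Pool.Agent.U667.CP
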