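import Pool.Agent.U667.CP.Main

/-!
Eigenvalues of `A + z K` outside of the hull of the spectrum of `A`, the bounded set of exceptional
`z` for operators of rank one, and the Chebyshev constants of countable compact sets.
-/

set_option autoImplicit false

namespace Pool.Agent.U667.CP

open MeasureTheory Filter Topology Polynomial

variable {H : Type} [NormedAddCommGroup H] [NormedSpace ℂ H] [CompleteSpace H]

/-- points of the spectrum of `A + L`, `L` compact, outside of the spectrum of `A` are eigenvalues -/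
theorem eigen_outside (hX : ¬ FiniteDimensional ℂ H) (A L : H →L[ℂ] H) (hL : IsCompactOperator L)
    {l : ℂ} (h1 : l ∈ spectrum ℂ (A + L)) (h2 : l ∉ spectrum ℂ A) :
    (∃ x : H, x ≠ 0 ∧ (A + L) x = l • x) ∧ A + L ≠ l • (1 : H →L[ℂ] H) := by
  rw [spectrum.notMem_iff] at h2
  obtain ⟨U, hU⟩ := h2
  set R : H →L[ℂ] H := ((U⁻¹ : (H →L[ℂ] H)ˣ) : H →L[ℂ] H) with hR
  have hUR : (algebraMap ℂ (H →L[ℂ] H) l - A) * R = 1 := by rw [← hU, hR, Units.mul_inv]
  have hRU : R * (algebraMap ℂ (H →L[ℂ] H) l - A) = 1 := by rw [← hU, hR, Units.inv_mul]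
  have hC : IsCompactOperator (R * L) := hL.clm_comp R
  constructor
  · have h3 : Module.End.HasEigenvalue ((R * L : H →L[ℂ] H) : H →ₗ[ℂ] H) 1 ∨
        (1 : ℂ) ∈ resolventSet ℂ (R * L) :=
      hC.hasEigenvalue_or_mem_resolventSet one_ne_zero
    rcases h3 with h3 | h3
    · obtain ⟨x, hx⟩ := h3.exists_hasEigenvector
      refine ⟨x, hx.2, ?_⟩
      have h4 : (R * L) x = x := by
        have := hx.apply_eq_smul
        rw [one_smul] at this
        exact this
      have h5 : (algebraMap ℂ (H →L[ℂ] H) l - A) x = L x := by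
        conv_lhs => rw [← h4]
        change ((algebraMap ℂ (H →L[ℂ] H) l - A) * R) (L x) = L x
        rw [hUR]
        rfl
      have h6 : (algebraMap ℂ (H →L[ℂ] H) l - A) x = l • x - A x := by
        rw [Algebra.algebraMap_eq_smul_one]
        rfl
      rw [h6] at h5
      change A x + L x = l • x
      rw [← h5]
      abel
    · exfalso
      rw [spectrum.mem_iff] at h1
      apply h1
      have h4 : algebraMap ℂ (H →L[ℂ] H) l - (A + L) =
          (algebraMap ℂ (H →L[ℂ] H) l - A) * (algebraMap ℂ (H →L[ℂ] H) 1 - R * L) := by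
        rw [mul_sub, ← mul_assoc, hUR, one_mul, map_one, mul_one]
        abel
      rw [h4]
      refine IsUnit.mul ⟨U, hU⟩ h3
  · intro h3
    apply hX
    have h4 : R * L = 1 := by
      have h5 : L = algebraMap ℂ (H →L[ℂ] H) l - A := by
        rw [Algebra.algebraMap_eq_smul_one, ← h3]
        abel
      rw [h5, hRU]
    rw [h4] at hC
    have h5 : IsCompact (closure (((1 : H →L[ℂ] H) : H → H) '' Metric.closedBall 0 1)) :=
      hC.isCompact_closure_image_closedBall 1
    have h6 : ((1 : H →L[ℂ] H) : H → H) '' Metric.closedBall 0 1 = Metric.closedBall 0 1 := by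
      ext y
      simp
    rw [h6, Metric.isClosed_closedBall.closure_eq] at h5
    exact FiniteDimensional.of_isCompact_closedBall ℂ one_pos h5

/-- the set of `z` such that `A + z K` has no spectrum outside of the hull of the spectrum of `A` -/
def Exc (A K : H →L[ℂ] H) : Set ℂ := {z | spectrum ℂ (A + z • K) ⊆ hull A}

theorem inverse_apply {A : H →L[ℂ] H} {w : ℂ} (hw : IsUnit (1 - w • A)) (y : H) :
    Ring.inverse (1 - w • A) y = y + w • Ring.inverse (1 - w • A) (A y) := by
  have h1 : Ring.inverse (1 - w • A) * (1 - w • A) = 1 := Ring.inverse_mul_cancel _ hw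
  have h2 : Ring.inverse (1 - w • A) ((1 - w • A) y) = y := by
    change (Ring.inverse (1 - w • A) * (1 - w • A)) y = y
    rw [h1]
    rfl
  have h3 : (1 - w • A) y = y - w • A y := rfl
  rw [h3, map_sub, map_smul, sub_eq_iff_eq_add] at h2
  exact h2

theorem analyticAt_res (A : H →L[ℂ] H) (f : H →L[ℂ] ℂ) (y : H) :
    AnalyticAt ℂ (fun w : ℂ => f (Ring.inverse (1 - w • A) y)) 0 := by
  have h1 : AnalyticAt ℂ (fun w : ℂ => (1 - w • A : H →L[ℂ] H)) 0 := by fun_prop
  have h2 : AnalyticAt ℂ (Ring.inverse : (H →L[ℂ] H) → (H →L[ℂ] H)) (1 - (0 : ℂ) • A) := by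
    rw [zero_smul, sub_zero]
    exact analyticAt_inverse (𝕜 := ℂ) (1 : (H →L[ℂ] H)ˣ)
  have h3 := h2.fun_comp_of_eq h1 rfl
  have h4 : AnalyticAt ℂ (fun w : ℂ => Ring.inverse (1 - w • A) y) 0 := by
    exact ((ContinuousLinearMap.apply ℂ H y).analyticAt _).comp h3
  exact (f.analyticAt _).comp h4

theorem exc_bounded [Nontrivial H] (A K : H →L[ℂ] H) {u : H} {f : H →L[ℂ] ℂ}
    (hK : ∀ x, K x = f x • u) {k : ℕ} (hc : f ((A ^ k) u) ≠ 0) :
    ∃ R : ℝ, ∀ z ∈ Exc A K, ‖z‖ ≤ R := by
  have hunit : ∀ᶠ w : ℂ in 𝓝 0, IsUnit (1 - w • A) := by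
    have h1 : Continuous fun w : ℂ => (1 - w • A : H →L[ℂ] H) := by fun_prop
    have h2 : {B : H →L[ℂ] H | IsUnit B} ∈ 𝓝 ((fun w : ℂ => (1 - w • A : H →L[ℂ] H)) 0) := by
      simp only [zero_smul, sub_zero]
      exact Units.nhds 1
    exact h1.continuousAt.eventually h2
  let g : ℂ → ℂ := fun w => w * f (Ring.inverse (1 - w • A) u)
  have hg : AnalyticAt ℂ g 0 := analyticAt_id.mul (analyticAt_res A f u)
  have hg0 : g 0 = 0 := by simp [g]
  rcases hg.eventually_constant_or_nhds_le_map_nhds with h | h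
  · exfalso
    apply hc
    have key : ∀ j : ℕ, (∀ᶠ w : ℂ in 𝓝 0, f (Ring.inverse (1 - w • A) ((A ^ j) u)) = 0) := by
      intro j
      induction j with
      | zero =>
        have h1 : ∀ᶠ w : ℂ in 𝓝[≠] 0, f (Ring.inverse (1 - w • A) ((A ^ 0) u)) = 0 := by
          rw [eventually_nhdsWithin_iff]
          filter_upwards [h] with w hw hw0
          rw [hg0] at hw
          rcases mul_eq_zero.1 hw with h2 | h2
          · exact absurd h2 hw0
          · simpa using h2
        exact ((analyticAt_res A f ((A ^ 0) u)).frequently_zero_iff_eventually_zero.1 h1.frequently)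
      | succ j ih =>
        have h0 : f ((A ^ j) u) = 0 := by
          have := ih.self_of_nhds
          simpa using this
        have h1 : ∀ᶠ w : ℂ in 𝓝[≠] 0, f (Ring.inverse (1 - w • A) ((A ^ (j + 1)) u)) = 0 := by
          rw [eventually_nhdsWithin_iff]
          filter_upwards [ih, hunit] with w hw hu hw0
          rw [inverse_apply hu, map_add, h0, zero_add, map_smul, smul_eq_mul] at hw
          have h2 : A ((A ^ j) u) = (A ^ (j + 1)) u := by
            rw [pow_succ']
            rfl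
          rw [h2] at hw
          rcases mul_eq_zero.1 hw with h3 | h3
          · exact absurd h3 hw0
          · exact h3
        exact ((analyticAt_res A f ((A ^ (j + 1)) u)).frequently_zero_iff_eventually_zero.1
          h1.frequently)
    have := (key k).self_of_nhds
    simpa using this
  · rw [hg0] at h
    have h1 : {w : ℂ | IsUnit (1 - w • A) ∧ ‖w‖ * ‖A‖ < 1} ∈ 𝓝 (0 : ℂ) := by
      have h2 : ∀ᶠ w : ℂ in 𝓝 0, ‖w‖ * ‖A‖ < 1 := by
        have h3 : ContinuousAt (fun w : ℂ => ‖w‖ * ‖A‖) 0 := by fun_prop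
        have h4 : (fun w : ℂ => ‖w‖ * ‖A‖) 0 < 1 := by simp
        exact h3.eventually (gt_mem_nhds h4)
      filter_upwards [hunit, h2] with w a b using ⟨a, b⟩
    have h2 : g '' {w : ℂ | IsUnit (1 - w • A) ∧ ‖w‖ * ‖A‖ < 1} ∈ 𝓝 (0 : ℂ) :=
      h (image_mem_map h1)
    obtain ⟨δ, hδ, hball⟩ := Metric.mem_nhds_iff.1 h2
    refine ⟨δ⁻¹, fun z hz => ?_⟩
    by_contra hcon
    push Not at hcon
    have hz0 : z ≠ 0 := by
      rintro rfl
      rw [norm_zero] at hcon
      exact absurd hcon (not_lt.2 (inv_nonneg.2 hδ.le))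
    have hzi : z⁻¹ ∈ Metric.ball (0 : ℂ) δ := by
      rw [Metric.mem_ball, dist_zero_right, norm_inv]
      exact inv_lt_of_inv_lt₀ hδ hcon
    obtain ⟨w, ⟨hw1, hw2⟩, hw3⟩ := hball hzi
    have hw0 : w ≠ 0 := by
      rintro rfl
      rw [hg0] at hw3
      exact inv_ne_zero hz0 hw3.symm
    set x := Ring.inverse (1 - w • A) u with hx
    have hfx : w * f x = z⁻¹ := hw3
    have hx0 : x ≠ 0 := by
      intro h0
      rw [h0, map_zero, mul_zero] at hfx
      exact inv_ne_zero hz0 hfx.symm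
    have hux : u = x - w • A x := by
      have h5 : (1 - w • A) * Ring.inverse (1 - w • A) = 1 := Ring.mul_inverse_cancel _ hw1
      have h6 : (1 - w • A) x = u := by
        change ((1 - w • A) * Ring.inverse (1 - w • A)) u = u
        rw [h5]
        rfl
      exact h6.symm
    have hT : (A + z • K) x = w⁻¹ • x := by
      have h5 : (A + z • K) x = A x + z • (f x • u) := by
        rw [← hK]
        rfl
      have h6 : z * f x = w⁻¹ := by
        field_simp at hfx ⊢
        linear_combination hfx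
      rw [h5, smul_smul, h6, hux, smul_sub, smul_smul, inv_mul_cancel₀ hw0, one_smul]
      abel
    have hspec : w⁻¹ ∈ spectrum ℂ (A + z • K) := by
      rw [spectrum.mem_iff]
      rintro ⟨U, hU⟩
      have h5 : (U : H →L[ℂ] H) x = 0 := by
        rw [hU, Algebra.algebraMap_eq_smul_one]
        change w⁻¹ • x - (A + z • K) x = 0
        rw [hT, sub_self]
      have h6 : x = 0 := by
        have h7 : ((U⁻¹ : (H →L[ℂ] H)ˣ) : H →L[ℂ] H) ((U : H →L[ℂ] H) x) = x := by
          change (((U⁻¹ : (H →L[ℂ] H)ˣ) : H →L[ℂ] H) * (U : H →L[ℂ] H)) x = x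
          rw [Units.inv_mul]
          rfl
        rw [← h7, h5, map_zero]
      exact hx0 h6
    obtain ⟨n, hn, hn2⟩ := hz hspec Polynomial.X
    rw [eval_X, eval_X] at hn2
    have h7 : ‖n‖ ≤ ‖A‖ := spectrum.norm_le_norm_of_mem hn
    have h8 : ‖w⁻¹‖ ≤ ‖A‖ := hn2.trans h7
    rw [norm_inv] at h8
    have h9 : 0 < ‖w‖ := norm_pos_iff.2 hw0
    have h10 : 1 ≤ ‖w‖ * ‖A‖ := by
      calc (1 : ℝ) = ‖w‖ * ‖w‖⁻¹ := (mul_inv_cancel₀ (ne_of_gt h9)).symm
        _ ≤ ‖w‖ * ‖A‖ := by gcongr
    linarith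

end Pool.Agent.U667.CP
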